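import Pool.Agent.Helper43.GD.St

/-! Project GD (helper43), module CEL: the big cell is finite. -/

set_option autoImplicit false

namespace Pool.Agent.Helper41.GD

open Pool.Agent.Helper43.GD

theorem kap_field {k : Type} [Field k] (h2 : (2 : k) ≠ 0) (c b₁ b₂ : k) :
    ∃ κ : ℤ, 1 + (c - (κ : k)) * b₁ ≠ 0 ∧ 1 + (κ : k) * b₂ ≠ 0 := by
  have n1 : (1 : k) ≠ 0 := one_ne_zero
  by_contra hcon
  push Not at hcon
  have k0 := hcon 0
  have k1 := hcon 1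
  have k2 := hcon (-1)
  simp only [Int.cast_zero, Int.cast_one, Int.cast_neg, sub_zero, zero_mul, add_zero, one_mul,
    sub_neg_eq_add, neg_mul] at k0 k1 k2
  have a0 : 1 + c * b₁ = 0 := by
    by_contra h
    exact n1 (k0 h)
  -- κ = 1 : first factor is nonzero
  have f1 : 1 + (c - 1) * b₁ ≠ 0 := by
    intro h
    have hb : b₁ = 0 := by linear_combination a0 - h
    rw [hb, mul_zero, add_zero] at a0
    exact n1 a0
  have f2 : 1 + (c + 1) * b₁ ≠ 0 := by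
    intro h
    have hb : b₁ = 0 := by linear_combination h - a0
    rw [hb, mul_zero, add_zero] at a0
    exact n1 a0
  have g1 := k1 f1
  have g2 := k2 f2
  have : (2 : k) = 0 := by linear_combination g1 + g2
  exact h2 this

theorem kap_local {L : Type} [CommRing L] [IsLocalRing L] (h2 : IsUnit (2 : L)) (c b₁ b₂ : L) :
    ∃ κ : L, IsUnit (1 + (c - κ) * b₁) ∧ IsUnit (1 + κ * b₂) := by
  have h2' : (2 : IsLocalRing.ResidueField L) ≠ 0 := by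
    have := (IsLocalRing.residue_ne_zero_iff_isUnit (2 : L)).2 h2
    rwa [map_ofNat] at this
  obtain ⟨κ, e1, e2⟩ := kap_field h2' (IsLocalRing.residue L c) (IsLocalRing.residue L b₁)
    (IsLocalRing.residue L b₂)
  refine ⟨(κ : L), ?_, ?_⟩
  · rw [← IsLocalRing.residue_ne_zero_iff_isUnit]
    simpa using e1
  · rw [← IsLocalRing.residue_ne_zero_iff_isUnit]
    simpa using e2

/-- the big cell -/
def Cell {L A : Type} [CommRing L] [Group A] (Q : Fr L A) : Set A :=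
  {g | ∃ (a b : L) (y : Lˣ) (c : L), g = Q.E a * Q.F b * Q.h y * Q.E c}

theorem cell_finite {L A : Type} [CommRing L] [Group A] (Q : Fr L A) [Finite L] :
    (Cell Q).Finite := by
  have : (Set.range (fun p : L × L × Lˣ × L => Q.E p.1 * Q.F p.2.1 * Q.h p.2.2.1 * Q.E p.2.2.2)).Finite :=
    Set.finite_range _
  refine this.subset ?_
  rintro g ⟨a, b, y, c, rfl⟩
  exact ⟨(a, b, y, c), rfl⟩

section

variable {L A : Type} [CommRing L] [Group A] (Q : Fr L A)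

theorem hE_comm (hU : ∀ u : Lˣ, u ∈ Q.U) (y : Lˣ) (a : L) :
    Q.h y * Q.E a = Q.E ((y : L) * a) * Q.h y := by
  rw [← Q.h_E (hU y)]; group

theorem hF_comm (hU : ∀ u : Lˣ, u ∈ Q.U) (y : Lˣ) (b : L) :
    Q.h y * Q.F b = Q.F (((y⁻¹ : Lˣ) : L) * b) * Q.h y := by
  rw [← Q.h_F (hU y)]; group

theorem Fh_comm (hU : ∀ u : Lˣ, u ∈ Q.U) (y : Lˣ) (b : L) :
    Q.F b * Q.h y = Q.h y * Q.F ((y : L) * b) := by
  rw [hF_comm Q hU, Units.inv_mul_cancel_left]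

theorem cell_leftE {g : A} (hg : g ∈ Cell Q) (a' : L) : Q.E a' * g ∈ Cell Q := by
  obtain ⟨a, b, y, c, rfl⟩ := hg
  refine ⟨a' + a, b, y, c, ?_⟩
  rw [Q.Eadd]; group

theorem cell_rightE {g : A} (hg : g ∈ Cell Q) (c' : L) : g * Q.E c' ∈ Cell Q := by
  obtain ⟨a, b, y, c, rfl⟩ := hg
  refine ⟨a, b, y, c + c', ?_⟩
  rw [Q.Eadd]; group

theorem cell_lefth (hU : ∀ u : Lˣ, u ∈ Q.U) {g : A} (hg : g ∈ Cell Q) (z : Lˣ) :
    Q.h z * g ∈ Cell Q := by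
  obtain ⟨a, b, y, c, rfl⟩ := hg
  refine ⟨(z : L) * a, ((z⁻¹ : Lˣ) : L) * b, z * y, c, ?_⟩
  rw [Q.h_mul (hU z) (hU y)]
  calc Q.h z * (Q.E a * Q.F b * Q.h y * Q.E c)
      = (Q.h z * Q.E a) * Q.F b * Q.h y * Q.E c := by group
    _ = Q.E ((z : L) * a) * (Q.h z * Q.F b) * Q.h y * Q.E c := by
        rw [hE_comm Q hU]; group
    _ = _ := by rw [hF_comm Q hU]; group

theorem core (hRL : ∀ (a b : L) (d : Lˣ), (d : L) = 1 + a * b →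
    Q.E a * Q.F b = Q.F (((d⁻¹ : Lˣ) : L) * b) * (Q.h d * Q.h d) * Q.E (((d⁻¹ : Lˣ) : L) * a))
    (hU : ∀ u : Lˣ, u ∈ Q.U) [IsLocalRing L] (h2 : IsUnit (2 : L)) (b₁ c b₂ : L) :
    Q.F b₁ * Q.E c * Q.F b₂ ∈ Cell Q := by
  obtain ⟨κ, ⟨D, hD⟩, ⟨D', hD'⟩⟩ := kap_local h2 c b₁ b₂
  have r1 := hRL κ b₂ D' hD'
  have r2 := hRL (-(c - κ)) (-b₁) D (by rw [hD]; ring)
  have r3 : Q.F b₁ * Q.E (c - κ) = Q.E (((D⁻¹ : Lˣ) : L) * (c - κ)) *
      (Q.h D⁻¹ * Q.h D⁻¹) * Q.F (((D⁻¹ : Lˣ) : L) * b₁) := by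
    have e := congrArg Inv.inv r2
    rw [Q.E_neg, Q.F_neg, mul_neg, mul_neg, Q.F_neg, Q.E_neg, mul_inv_rev, inv_inv, inv_inv,
      mul_inv_rev, mul_inv_rev, mul_inv_rev, inv_inv, inv_inv, ← Q.h_inv (hU D)] at e
    rw [e]; group
  have hc : Q.E c = Q.E (c - κ) * Q.E κ := by rw [← Q.Eadd, sub_add_cancel]
  set A₁ := ((D⁻¹ : Lˣ) : L) * (c - κ)
  set B₁ := ((D⁻¹ : Lˣ) : L) * b₁
  set A₂ := ((D'⁻¹ : Lˣ) : L) * κ
  set B₂ := ((D'⁻¹ : Lˣ) : L) * b₂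
  have s1 : Q.h D⁻¹ * Q.h D⁻¹ * Q.F (B₁ + B₂) =
      Q.F ((((D⁻¹ : Lˣ)⁻¹ : Lˣ) : L) * ((((D⁻¹ : Lˣ)⁻¹ : Lˣ) : L) * (B₁ + B₂))) *
        (Q.h D⁻¹ * Q.h D⁻¹) := by
    rw [mul_assoc, hF_comm Q hU, ← mul_assoc, hF_comm Q hU, mul_assoc]
  refine ⟨A₁, (((D⁻¹ : Lˣ)⁻¹ : Lˣ) : L) * ((((D⁻¹ : Lˣ)⁻¹ : Lˣ) : L) * (B₁ + B₂)),
    D⁻¹ * D⁻¹ * (D' * D'), A₂, ?_⟩
  rw [Q.h_mul (hU _) (hU _), Q.h_mul (hU D⁻¹) (hU _), Q.h_mul (hU D') (hU _)]
  calc Q.F b₁ * Q.E c * Q.F b₂ = (Q.F b₁ * Q.E (c - κ)) * (Q.E κ * Q.F b₂) := by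
        rw [hc]; group
    _ = (Q.E A₁ * (Q.h D⁻¹ * Q.h D⁻¹) * Q.F B₁) * (Q.F B₂ * (Q.h D' * Q.h D') * Q.E A₂) := by
        rw [r3, r1]
    _ = Q.E A₁ * (Q.h D⁻¹ * Q.h D⁻¹ * (Q.F B₁ * Q.F B₂)) * (Q.h D' * Q.h D') * Q.E A₂ := by
        group
    _ = _ := by
        rw [← Q.Fadd, s1]; group

end

theorem hCEL (hRL : StRL) : StCEL := by
  intro L A _ _ Q hfin hloc h2 hU
  have hcore := core Q (hRL L A Q hloc h2 hU) hU h2
  have hrightF : ∀ {g : A}, g ∈ Cell Q → ∀ b' : L, g * Q.F b' ∈ Cell Q := by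
    rintro g ⟨a, b, y, c, rfl⟩ b'
    have e : Q.E a * Q.F b * Q.h y * Q.E c * Q.F b' =
        Q.E a * (Q.h y * (Q.F ((y : L) * b) * Q.E c * Q.F b')) := by
      calc Q.E a * Q.F b * Q.h y * Q.E c * Q.F b'
          = Q.E a * (Q.F b * Q.h y) * Q.E c * Q.F b' := by group
        _ = _ := by rw [Fh_comm Q hU]; group
    rw [e]
    exact cell_leftE Q (cell_lefth Q hU (hcore _ _ _) _) _
  have hone : (1 : A) ∈ Cell Q := by
    refine ⟨0, 0, 1, 0, ?_⟩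
    rw [Q.E_zero, Q.F_zero, Q.h_one]; simp
  have hsub : (Q.gp : Set A) ⊆ Cell Q := by
    intro g hg
    have hg' : g ∈ Subgroup.closure (Set.range Q.E ∪ Set.range Q.F) := hg
    induction hg' using Subgroup.closure_induction_right with
    | one => exact hone
    | mul_right x hx y hy ih =>
      rcases hy with ⟨a, rfl⟩ | ⟨b, rfl⟩
      · exact cell_rightE Q (ih hx) a
      · exact hrightF (ih hx) b
    | mul_inv_cancel x hx y hy ih =>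
      rcases hy with ⟨a, rfl⟩ | ⟨b, rfl⟩
      · rw [← Q.E_neg]; exact cell_rightE Q (ih hx) _
      · rw [← Q.F_neg]; exact hrightF (ih hx) _
  exact ((cell_finite Q).subset hsub).to_subtype

end Pool.Agent.Helper41.GD
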